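import Pool.Agent.W763.PB.Stm

/-! Project PB: Riemann-Lebesgue on the circle. -/

set_option autoImplicit false
open MeasureTheory Filter Topology

namespace Pool.Agent.W816.PB

open Pool.Agent.W763.PB

theorem f4a : S_F4a := by
  intro g hg
  have hcont : Continuous (fun t : ℝ => Complex.exp ((t : ℂ) * Complex.I)) := by fun_prop
  have key : ∀ n : ℕ, ∫ z, z ^ n * g z ∂(Measure.map (fun t : ℝ => Complex.exp ((t : ℂ) * Complex.I))
      (volume.restrict (Set.Ioc 0 (2 * Real.pi)))) =
      ∫ v : ℝ, Real.fourierChar (-(v * (-((n : ℝ) / (2 * Real.pi))))) •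
        (Set.Ioc 0 (2 * Real.pi)).indicator (fun t : ℝ => g (Complex.exp ((t : ℂ) * Complex.I))) v := by
    intro n
    have hm : AEStronglyMeasurable (fun z : ℂ => z ^ n * g z)
        (Measure.map (fun t : ℝ => Complex.exp ((t : ℂ) * Complex.I))
          (volume.restrict (Set.Ioc 0 (2 * Real.pi)))) :=
      ((continuous_pow n).aestronglyMeasurable).mul hg.aestronglyMeasurable
    rw [integral_map hcont.aemeasurable hm]
    rw [← integral_indicator measurableSet_Ioc]
    congr 1
    funext v
    by_cases hv : v ∈ Set.Ioc 0 (2 * Real.pi)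
    · rw [Set.indicator_of_mem hv, Set.indicator_of_mem hv, Circle.smul_def, smul_eq_mul,
        Real.fourierChar_apply]
      congr 1
      rw [← Complex.exp_nat_mul]
      congr 1
      have hpi : (Real.pi : ℂ) ≠ 0 := by exact_mod_cast Real.pi_ne_zero
      push_cast
      field_simp
    · rw [Set.indicator_of_notMem hv, Set.indicator_of_notMem hv, smul_zero]
  simp_rw [key]
  have h1 := Real.tendsto_integral_exp_smul_cocompact
    ((Set.Ioc 0 (2 * Real.pi)).indicator (fun t : ℝ => g (Complex.exp ((t : ℂ) * Complex.I))))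
  have h2 : Tendsto (fun n : ℕ => -((n : ℝ) / (2 * Real.pi))) atTop (cocompact ℝ) := by
    refine Tendsto.mono_right ?_ atBot_le_cocompact
    exact tendsto_neg_atTop_atBot.comp
      (tendsto_natCast_atTop_atTop.atTop_div_const (by positivity))
  exact h1.comp h2

end Pool.Agent.W816.PB
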